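import Pool.Agent.KDD.Stmts

/-!
# Squad KDD, row RTC (helper91): roots at a place without triple roots
-/

set_option autoImplicit false

namespace Pool.Agent.KDD.H91

open Polynomial Finset

/-- sums of small elements are small -/
theorem sum_lt {Ω ι : Type} [Field Ω] {w : AbsoluteValue Ω ℝ} (hna : IsNonarchimedean w)
    (s : Finset ι) (g : ι → Ω) (B : ℝ) (hB : 0 < B) (h : ∀ i ∈ s, w (g i) < B) :
    w (∑ i ∈ s, g i) < B := by
  rcases s.eq_empty_or_nonempty with h0 | h0
  · subst h0
    simpa using hB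
  · obtain ⟨b, hb, hb2⟩ := IsNonarchimedean.finset_image_add_of_nonempty hna g h0
    exact hb2.trans_lt (h b hb)

theorem sum_le {Ω ι : Type} [Field Ω] {w : AbsoluteValue Ω ℝ} (hna : IsNonarchimedean w)
    (s : Finset ι) (g : ι → Ω) (B : ℝ) (hB : 0 ≤ B) (h : ∀ i ∈ s, w (g i) ≤ B) :
    w (∑ i ∈ s, g i) ≤ B := by
  rcases s.eq_empty_or_nonempty with h0 | h0
  · subst h0
    simpa using hB
  · obtain ⟨b, hb, hb2⟩ := IsNonarchimedean.finset_image_add_of_nonempty hna g h0
    exact hb2.trans (h b hb)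

/-- a value of a polynomial with small coefficients at an integral point is small -/
theorem eval_lt {Ω : Type} [Field Ω] {w : AbsoluteValue Ω ℝ} (hna : IsNonarchimedean w)
    (p : Polynomial Ω) (x : Ω) (hx : w x ≤ 1) (hp : ∀ n, w (p.coeff n) < 1) : w (p.eval x) < 1 := by
  rw [eval_eq_sum_range]
  refine sum_lt hna _ _ _ one_pos fun n _ => ?_
  rw [map_mul, map_pow]
  calc w (p.coeff n) * w x ^ n ≤ w (p.coeff n) * 1 :=
        mul_le_mul_of_nonneg_left (pow_le_one₀ (w.nonneg _) hx) (w.nonneg _)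
    _ < 1 := by rw [mul_one]; exact hp n

theorem eval_le {Ω : Type} [Field Ω] {w : AbsoluteValue Ω ℝ} (hna : IsNonarchimedean w)
    (p : Polynomial Ω) (x : Ω) (hx : w x ≤ 1) (hp : ∀ n, w (p.coeff n) ≤ 1) : w (p.eval x) ≤ 1 := by
  rw [eval_eq_sum_range]
  refine sum_le hna _ _ _ zero_le_one fun n _ => ?_
  rw [map_mul, map_pow]
  exact mul_le_one₀ (hp n) (pow_nonneg (w.nonneg _) _) (pow_le_one₀ (w.nonneg _) hx)

/-- a root of a monic polynomial with integral coefficients is integral -/
theorem root_le {Ω : Type} [Field Ω] {w : AbsoluteValue Ω ℝ} (hna : IsNonarchimedean w)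
    (p : Polynomial Ω) (x : Ω) (hm : p.Monic) (hp : ∀ n, w (p.coeff n) ≤ 1) (hx : p.eval x = 0) :
    w x ≤ 1 := by
  by_contra hcon
  push Not at hcon
  have hd : 0 < p.natDegree := by
    rcases Nat.eq_zero_or_pos p.natDegree with h0 | h0
    · exfalso
      rw [hm.natDegree_eq_zero.mp h0] at hx
      simp at hx
    · exact h0
  have h1 : p.eval x = ∑ n ∈ range p.natDegree, p.coeff n * x ^ n + x ^ p.natDegree := by
    rw [eval_eq_sum_range, sum_range_succ, hm.coeff_natDegree, one_mul]
  have h2 : w (x ^ p.natDegree) = w (∑ n ∈ range p.natDegree, p.coeff n * x ^ n) := by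
    rw [hx] at h1
    have h3 : x ^ p.natDegree = -∑ n ∈ range p.natDegree, p.coeff n * x ^ n := by
      linear_combination -h1
    rw [h3, w.map_neg]
  have h3 : w (∑ n ∈ range p.natDegree, p.coeff n * x ^ n) < w x ^ p.natDegree := by
    refine sum_lt hna _ _ _ (pow_pos (by linarith) _) fun n hn => ?_
    rw [map_mul, map_pow]
    calc w (p.coeff n) * w x ^ n ≤ 1 * w x ^ n :=
          mul_le_mul_of_nonneg_right (hp n) (pow_nonneg (w.nonneg _) _)
      _ = w x ^ n := one_mul _
      _ < w x ^ p.natDegree := pow_lt_pow_right₀ hcon (mem_range.mp hn)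
  rw [map_pow] at h2
  rw [← h2] at h3
  exact lt_irrefl _ h3

theorem two_more : ∀ a b c : Fin 5, a ≠ b → a ≠ c → b ≠ c → ∃ u v : Fin 5,
    u ≠ a ∧ u ≠ b ∧ u ≠ c ∧ v ≠ a ∧ v ≠ b ∧ v ≠ c ∧ u ≠ v := by
  decide +kernel

theorem three_more : ∀ a b : Fin 5, a ≠ b → ∃ c u v : Fin 5,
    c ≠ a ∧ c ≠ b ∧ u ≠ a ∧ u ≠ b ∧ v ≠ a ∧ v ≠ b ∧ c ≠ u ∧ c ≠ v ∧ u ≠ v := by
  decide +kernel

/-- a product over five distinct indices -/
theorem prod_five {M : Type} [CommMonoid M] (F : Fin 5 → M) (σ : Fin 5 → Fin 5)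
    (hσ : Function.Injective σ) : ∏ k, F k = F (σ 0) * F (σ 1) * F (σ 2) * F (σ 3) * F (σ 4) := by
  have hb : Function.Bijective σ := Finite.injective_iff_bijective.mp hσ
  rw [← hb.prod_comp F, Fin.prod_univ_five]

theorem inj_five (a b c u v : Fin 5) (h1 : a ≠ b) (h2 : a ≠ c) (h3 : b ≠ c) (h4 : u ≠ a)
    (h5 : u ≠ b) (h6 : u ≠ c) (h7 : v ≠ a) (h8 : v ≠ b) (h9 : v ≠ c) (h10 : u ≠ v) :
    Function.Injective ![a, b, c, u, v] := by
  intro x y hxy
  fin_cases x <;> fin_cases y <;> first | rfl | (exfalso; simp at hxy; first | exact h1 hxy | exact h1 hxy.symm | exact h2 hxy | exact h2 hxy.symm | exact h3 hxy | exact h3 hxy.symm | exact h4 hxy | exact h4 hxy.symm | exact h5 hxy | exact h5 hxy.symm | exact h6 hxy | exact h6 hxy.symm | exact h7 hxy | exact h7 hxy.symm | exact h8 hxy | exact h8 hxy.symm | exact h9 hxy | exact h9 hxy.symm | exact h10 hxy | exact h10 hxy.symm)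

/-- the second derivative at a root with two close roots -/
theorem second {Ω : Type} [Field Ω] (A B D U V : Ω) :
    (derivative (derivative ((X - C A) * (X - C B) * (X - C D) * (X - C U) * (X - C V)))).eval A
      = 2 * ((A - B) + (A - D)) * ((A - U) * (A - V))
        + 2 * ((A - B) * (A - D)) * ((A - U) + (A - V)) := by
  simp only [derivative_mul, derivative_sub, derivative_X, derivative_C, sub_zero, mul_one,
    one_mul, derivative_add, eval_add, eval_mul, eval_sub, eval_X, eval_C, map_add, map_mul,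
    derivative_one, mul_zero, zero_mul, add_zero, zero_add, eval_one]
  ring

theorem first {Ω : Type} [Field Ω] (A B D U V : Ω) :
    (derivative ((X - C A) * (X - C B) * (X - C D) * (X - C U) * (X - C V))).eval A
      = (A - B) * (A - D) * ((A - U) * (A - V)) := by
  simp only [derivative_mul, derivative_sub, derivative_X, derivative_C, sub_zero, mul_one,
    one_mul, derivative_add, eval_add, eval_mul, eval_sub, eval_X, eval_C]
  ring

theorem discr_map {K L : Type} [Field K] [Field L] (φ : K →+* L) {f : K[X]} (hf : f.Monic)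
    (h5 : f.natDegree = 5) : (f.map φ).discr = φ f.discr := by
  have hm : (f.map φ).Monic := hf.map φ
  have hd : (f.map φ).natDegree = 5 := by rw [hf.natDegree_map, h5]
  have h1 : resultant f (derivative f) 5 4 = discr f := by
    have h := resultant_deriv (f := f) (natDegree_pos_iff_degree_pos.mp (by omega))
    rw [h5, hf.leadingCoeff] at h
    norm_num at h
    exact h
  have h2 : resultant (f.map φ) (derivative (f.map φ)) 5 4 = discr (f.map φ) := by
    have h := resultant_deriv (f := f.map φ) (natDegree_pos_iff_degree_pos.mp (by omega))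
    rw [hd, hm.leadingCoeff] at h
    norm_num at h
    exact h
  rw [← h2, ← h1, Polynomial.derivative_map, resultant_map_map]

theorem rtc (hdsr : Pool.Agent.SZT.DsrStatement) : RtcStatement := by
  intro K Ω _ _ _ _ i v w f hna hwv hf h5 hsq hcf hdis
  obtain ⟨hv2, hvf, a, b, c, habc, hid⟩ := hcf
  have hmm : (f.map i).Monic := hf.map i
  have hdd : (f.map i).natDegree = 5 := by rw [hf.natDegree_map, h5]
  have hsep : (f.map i).Separable := (PerfectField.separable_iff_squarefree.mpr hsq).map
  have hnd : (f.map i).roots.Nodup := nodup_roots hsep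
  have hcard : Multiset.card (f.map i).roots = 5 := by
    rw [← (IsAlgClosed.splits (f.map i)).natDegree_eq_card_roots, hdd]
  have hprod : ((f.map i).roots.map fun x => X - C x).prod = f.map i := by
    exact prod_multiset_X_sub_C_of_monic_of_roots_card_eq hmm (by rw [hcard, hdd])
  obtain ⟨θ, hθi, hθr⟩ : ∃ θ : Fin 5 → Ω, Function.Injective θ ∧
      (Multiset.map θ Finset.univ.val) = (f.map i).roots := by
    classical
    have hc2 : (f.map i).roots.toFinset.card = 5 := by
      rw [Multiset.toFinset_card_of_nodup hnd, hcard]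
    let e := (Finset.equivFinOfCardEq hc2).symm
    refine ⟨fun k => (e k : Ω), ?_, ?_⟩
    · intro x y hxy
      exact e.injective (Subtype.ext hxy)
    · have h1 : Finset.univ.image (fun k => (e k : Ω)) = (f.map i).roots.toFinset := by
        ext x
        simp only [Finset.mem_image, Finset.mem_univ, true_and]
        constructor
        · rintro ⟨k, rfl⟩
          exact (e k).2
        · intro hx
          exact ⟨e.symm ⟨x, hx⟩, by simp⟩
      have h2 : (Finset.univ.image (fun k => (e k : Ω))).val = Multiset.map (fun k => (e k : Ω)) Finset.univ.val := by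
        rw [Finset.image_val]
        apply Multiset.dedup_eq_self.mpr
        exact Multiset.Nodup.map (fun x y hxy => e.injective (Subtype.ext hxy)) Finset.univ.nodup
      rw [← h2, h1, Multiset.toFinset_val, Multiset.dedup_eq_self.mpr hnd]
  have hfac : f.map i = ∏ k, (X - C (θ k)) := by
    rw [← hprod, ← hθr, Multiset.map_map]
    rfl
  have hcw : ∀ n, w ((f.map i).coeff n) ≤ 1 := by
    intro n
    rw [coeff_map, hwv]
    exact hvf n
  have hroot : ∀ k, (f.map i).eval (θ k) = 0 := by
    intro k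
    rw [hfac, eval_prod]
    exact Finset.prod_eq_zero (mem_univ k) (by simp)
  have hle : ∀ k, w (θ k) ≤ 1 := fun k => root_le hna _ _ hmm hcw (hroot k)
  have hdle : ∀ k l, w (θ k - θ l) ≤ 1 := by
    intro k l
    rw [sub_eq_add_neg]
    refine (hna _ _).trans (max_le (hle k) ?_)
    rw [w.map_neg]
    exact hle l
  have hthree : ∀ k l m, k ≠ l → k ≠ m → l ≠ m → w (θ k - θ l) < 1 → w (θ k - θ m) = 1 := by
    intro k l m hkl hkm hlm hlt
    by_contra hne
    have hlt2 : w (θ k - θ m) < 1 := lt_of_le_of_ne (hdle k m) hne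
    obtain ⟨p, q, h4, h5', h6, h7, h8, h9, h10⟩ := two_more k l m hkl hkm hlm
    have hinj := inj_five k l m p q hkl hkm hlm h4 h5' h6 h7 h8 h9 h10
    have hF : f.map i = (X - C (θ k)) * (X - C (θ l)) * (X - C (θ m)) * (X - C (θ p)) *
        (X - C (θ q)) := by
      rw [hfac, prod_five _ _ hinj]
      simp
    have hw1 : w ((derivative (f.map i)).eval (θ k)) < 1 := by
      rw [hF, first, map_mul, map_mul, map_mul]
      have e1 := hdle k p
      have e2 := hdle k q
      have e3 : w (θ k - θ l) * w (θ k - θ m) < 1 := by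
        have := w.nonneg (θ k - θ l)
        have := w.nonneg (θ k - θ m)
        nlinarith
      have e4 : w (θ k - θ p) * w (θ k - θ q) ≤ 1 := mul_le_one₀ e1 (w.nonneg _) e2
      have e5 : 0 ≤ w (θ k - θ l) * w (θ k - θ m) := mul_nonneg (w.nonneg _) (w.nonneg _)
      calc _ ≤ w (θ k - θ l) * w (θ k - θ m) * 1 := mul_le_mul_of_nonneg_left e4 e5
        _ < 1 := by rw [mul_one]; exact e3
    have h2le : w 2 ≤ 1 := by
      have := IsNonarchimedean.apply_natCast_le_one (f := w) hna (n := 2)
      simpa using this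
    have hw2 : w ((derivative (derivative (f.map i))).eval (θ k)) < 1 := by
      rw [hF, second]
      refine (hna _ _).trans_lt (max_lt ?_ ?_)
      · rw [map_mul, map_mul, map_mul]
        have e1 : w (θ k - θ l + (θ k - θ m)) < 1 := (hna _ _).trans_lt (max_lt hlt hlt2)
        have e4 : w (θ k - θ p) * w (θ k - θ q) ≤ 1 := mul_le_one₀ (hdle k p) (w.nonneg _) (hdle k q)
        have e5 : w 2 * w (θ k - θ l + (θ k - θ m)) < 1 := by
          have := w.nonneg (θ k - θ l + (θ k - θ m))
          have := w.nonneg 2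
          nlinarith
        have e6 : 0 ≤ w 2 * w (θ k - θ l + (θ k - θ m)) := mul_nonneg (w.nonneg _) (w.nonneg _)
        calc _ ≤ w 2 * w (θ k - θ l + (θ k - θ m)) * 1 := mul_le_mul_of_nonneg_left e4 e6
          _ < 1 := by rw [mul_one]; exact e5
      · rw [map_mul, map_mul, map_mul]
        have e1 : w (θ k - θ p + (θ k - θ q)) ≤ 1 :=
          (hna _ _).trans (max_le (hdle k p) (hdle k q))
        have e3 : w (θ k - θ l) * w (θ k - θ m) < 1 := by
          have := w.nonneg (θ k - θ l)
          have := w.nonneg (θ k - θ m)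
          nlinarith
        have e5 : w 2 * (w (θ k - θ l) * w (θ k - θ m)) < 1 := by
          have := w.nonneg 2
          have : 0 ≤ w (θ k - θ l) * w (θ k - θ m) := mul_nonneg (w.nonneg _) (w.nonneg _)
          nlinarith
        have e6 : 0 ≤ w 2 * (w (θ k - θ l) * w (θ k - θ m)) :=
          mul_nonneg (w.nonneg _) (mul_nonneg (w.nonneg _) (w.nonneg _))
        calc _ ≤ w 2 * (w (θ k - θ l) * w (θ k - θ m)) * 1 := mul_le_mul_of_nonneg_left e1 e6
          _ < 1 := by rw [mul_one]; exact e5
    have hE : w (((a * f + b * derivative f + c * derivative (derivative f) - 1).map i).eval (θ k))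
        < 1 := by
      refine eval_lt hna _ _ (hle k) fun n => ?_
      rw [coeff_map, hwv]
      exact hid n
    have hE2 : ((a * f + b * derivative f + c * derivative (derivative f) - 1).map i).eval (θ k)
        = ((b.map i).eval (θ k) * (derivative (f.map i)).eval (θ k)
          + (c.map i).eval (θ k) * (derivative (derivative (f.map i))).eval (θ k)) - 1 := by
      simp only [Polynomial.map_sub, Polynomial.map_add, Polynomial.map_mul, Polynomial.map_one,
        eval_sub, eval_add, eval_mul, eval_one, ← derivative_map, hroot k]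
      ring
    have hb1 : w ((b.map i).eval (θ k)) ≤ 1 := eval_le hna _ _ (hle k) fun n => by
      rw [coeff_map, hwv]; exact (habc n).2.1
    have hc1 : w ((c.map i).eval (θ k)) ≤ 1 := eval_le hna _ _ (hle k) fun n => by
      rw [coeff_map, hwv]; exact (habc n).2.2
    have hs : w ((b.map i).eval (θ k) * (derivative (f.map i)).eval (θ k)
          + (c.map i).eval (θ k) * (derivative (derivative (f.map i))).eval (θ k)) < 1 := by
      refine (hna _ _).trans_lt (max_lt ?_ ?_)
      · rw [map_mul]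
        calc _ ≤ 1 * w ((derivative (f.map i)).eval (θ k)) :=
              mul_le_mul_of_nonneg_right hb1 (w.nonneg _)
          _ < 1 := by rw [one_mul]; exact hw1
      · rw [map_mul]
        calc _ ≤ 1 * w ((derivative (derivative (f.map i))).eval (θ k)) :=
              mul_le_mul_of_nonneg_right hc1 (w.nonneg _)
          _ < 1 := by rw [one_mul]; exact hw2
    rw [hE2] at hE
    have h1 : w (1 : Ω) < 1 := by
      have h2 : (1 : Ω) = ((b.map i).eval (θ k) * (derivative (f.map i)).eval (θ k)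
          + (c.map i).eval (θ k) * (derivative (derivative (f.map i))).eval (θ k))
          + -(((b.map i).eval (θ k) * (derivative (f.map i)).eval (θ k)
          + (c.map i).eval (θ k) * (derivative (derivative (f.map i))).eval (θ k)) - 1) := by ring
      rw [h2]
      refine (hna _ _).trans_lt (max_lt hs ?_)
      rw [w.map_neg]
      exact hE
    rw [map_one] at h1
    exact lt_irrefl _ h1
  refine ⟨θ, hfac, hθi, hle, hthree, ?_⟩
  -- the discriminant
  have hwd : w ((f.map i).discr) = v f.discr := by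
    rw [discr_map i hf h5, hwv]
  have hpair : ∀ σ : Fin 5 → Fin 5, Function.Injective σ → v f.discr =
      (w (θ (σ 0) - θ (σ 1)) * w (θ (σ 0) - θ (σ 2)) * w (θ (σ 0) - θ (σ 3)) * w (θ (σ 0) - θ (σ 4))
      * w (θ (σ 1) - θ (σ 2)) * w (θ (σ 1) - θ (σ 3)) * w (θ (σ 1) - θ (σ 4))
      * w (θ (σ 2) - θ (σ 3)) * w (θ (σ 2) - θ (σ 4)) * w (θ (σ 3) - θ (σ 4))) ^ 2 := by
    intro σ hσ
    have hb : Function.Bijective σ := Finite.injective_iff_bijective.mp hσ
    have h1 : f.map i = ∏ k, (X - C ((θ ∘ σ) k)) := by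
      rw [hfac, ← hb.prod_comp (fun k => (X - C (θ k) : Polynomial Ω))]
      rfl
    have h2 : w (Pool.Agent.SZT.dsc (θ ∘ σ)) = v f.discr := by
      rw [← hwd, h1]
      rcases hdsr Ω (θ ∘ σ) with h3 | h3
      · rw [h3]
      · rw [h3, w.map_neg]
    have f0 : (Finset.univ.filter (fun j : Fin 5 => (0 : Fin 5) < j)) = {1, 2, 3, 4} := by decide
    have f1 : (Finset.univ.filter (fun j : Fin 5 => (1 : Fin 5) < j)) = {2, 3, 4} := by decide
    have f2 : (Finset.univ.filter (fun j : Fin 5 => (2 : Fin 5) < j)) = {3, 4} := by decide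
    have f3 : (Finset.univ.filter (fun j : Fin 5 => (3 : Fin 5) < j)) = {4} := by decide
    have f4 : (Finset.univ.filter (fun j : Fin 5 => (4 : Fin 5) < j)) = ∅ := by decide
    rw [← h2]
    unfold Pool.Agent.SZT.dsc
    rw [Fin.prod_univ_five, f0, f1, f2, f3, f4]
    simp only [Finset.prod_insert, Finset.mem_insert, Finset.mem_singleton, Finset.prod_singleton,
      Finset.prod_empty, Fin.reduceEq, or_self, not_false_eq_true, map_mul, map_pow, Function.comp,
      mul_one]
    ring
  have hall : ∃ k l, k ≠ l ∧ w (θ k - θ l) < 1 := by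
    by_contra hcon
    push Not at hcon
    have h1 : ∀ k l, k ≠ l → w (θ k - θ l) = 1 := fun k l hkl => le_antisymm (hdle k l) (hcon k l hkl)
    have h2 := hpair id Function.injective_id
    simp only [id] at h2
    rw [h1 0 1 (by decide), h1 0 2 (by decide), h1 0 3 (by decide), h1 0 4 (by decide),
      h1 1 2 (by decide), h1 1 3 (by decide), h1 1 4 (by decide), h1 2 3 (by decide),
      h1 2 4 (by decide), h1 3 4 (by decide)] at h2
    rw [h2] at hdis
    norm_num at hdis
  obtain ⟨k₀, l₀, hkl₀, hlt₀⟩ := hall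
  obtain ⟨⟨k, l⟩, hmem, hmin⟩ := Finset.exists_min_image
    (Finset.univ.filter fun p : Fin 5 × Fin 5 => p.1 ≠ p.2) (fun p => w (θ p.1 - θ p.2))
    ⟨(k₀, l₀), by simpa using hkl₀⟩
  have hkl : k ≠ l := by simpa using hmem
  have hmin' : ∀ x y, x ≠ y → w (θ k - θ l) ≤ w (θ x - θ y) := by
    intro x y hxy
    exact hmin (x, y) (by simpa using hxy)
  have hlt : w (θ k - θ l) < 1 := (hmin' k₀ l₀ hkl₀).trans_lt hlt₀
  refine ⟨k, l, hkl, hlt, ?_⟩
  obtain ⟨m, p, q, g1, g2, g3, g4, g5, g6, g7, g8, g9⟩ := three_more k l hkl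
  have hinj := inj_five k l m p q hkl g1.symm g2.symm g3 g4 g7.symm g5 g6 g8.symm g9
  have hP := hpair _ hinj
  simp only [Matrix.cons_val] at hP
  have hlt' : w (θ l - θ k) < 1 := by
    rw [w.map_sub]; exact hlt
  rw [hthree k l m hkl g1.symm g2.symm hlt, hthree k l p hkl g3.symm g4.symm hlt,
    hthree k l q hkl g5.symm g6.symm hlt, hthree l k m hkl.symm g2.symm g1.symm hlt',
    hthree l k p hkl.symm g4.symm g3.symm hlt', hthree l k q hkl.symm g6.symm g5.symm hlt'] at hP
  have e0 : 0 ≤ w (θ k - θ l) := w.nonneg _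
  have hfin : ∀ x y z : ℝ, w (θ k - θ l) ≤ x → x ≤ 1 → w (θ k - θ l) ≤ y → y ≤ 1 →
      w (θ k - θ l) ≤ z → z ≤ 1 → (x < 1 → y = 1) → (x < 1 → z = 1) → (y < 1 → z = 1) →
      w (θ k - θ l) ≤ x * y * z := by
    intro x y z hx1 hx2 hy1 hy2 hz1 hz2 h1 h2 h3
    rcases lt_or_eq_of_le hx2 with h | h
    · rw [h1 h, h2 h, mul_one, mul_one]; exact hx1
    · rw [h, one_mul]
      rcases lt_or_eq_of_le hy2 with h' | h'
      · rw [h3 h', mul_one]; exact hy1
      · rw [h', one_mul]; exact hz1
  have h1 := hfin (w (θ m - θ p)) (w (θ m - θ q)) (w (θ p - θ q)) (hmin' _ _ g7) (hdle _ _)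
    (hmin' _ _ g8) (hdle _ _) (hmin' _ _ g9) (hdle _ _)
    (fun h => hthree m p q g7 g8 g9 h)
    (fun h => hthree p m q g7.symm g9 g8 (by rw [w.map_sub]; exact h))
    (fun h => by
      rw [w.map_sub]
      exact hthree q m p g8.symm g9.symm g7 (by rw [w.map_sub]; exact h))
  rw [hP]
  have h2 : (w (θ k - θ l)) ^ 2 ≤ w (θ k - θ l) * (w (θ m - θ p) * w (θ m - θ q) * w (θ p - θ q)) := by
    rw [pow_two]
    exact mul_le_mul_of_nonneg_left h1 e0
  calc w (θ k - θ l) ^ 4 = (w (θ k - θ l) ^ 2) ^ 2 := by ring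
    _ ≤ (w (θ k - θ l) * (w (θ m - θ p) * w (θ m - θ q) * w (θ p - θ q))) ^ 2 :=
        pow_le_pow_left₀ (by positivity) h2 2
    _ = _ := by ring

end Pool.Agent.KDD.H91
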